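import Mathlib
import Pool.Agent.H97.L.S8.H438R2.ZD.Defs
import Pool.Agent.H97.L.Tf0cf7b00.H438R2.BR.T3
set_option autoImplicit false

/-! # Z2: the kernel lemma for zonal densities -/

namespace Pool.Agent.H438R2.ZD

open MeasureTheory Set Complex
open scoped ENNReal RealInnerProductSpace
open Pool.Agent.H438R2.BR (Phi Q K ka ka_nonneg ka_cont ka_integrable ka_laplace)

/-- the exponential weight -/
theorem zk_exp (B : ℝ) (hB : 0 < B) (x : ℝ) :
    Integrable (fun t : ℝ => ((Real.exp (-(|t| / B)) : ℝ) : ℂ) *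
      Complex.exp (-((t * x : ℝ) : ℂ) * I)) ∧
    ∫ t : ℝ, ((Real.exp (-(|t| / B)) : ℝ) : ℂ) * Complex.exp (-((t * x : ℝ) : ℂ) * I) =
      ((2 * K B x : ℝ) : ℂ) := by
  have hB' : (B : ℂ) ≠ 0 := by exact_mod_cast hB.ne'
  set a : ℂ := 1 / B + x * I with ha
  set a' : ℂ := 1 / B - x * I with ha'
  have hre : (1 / (B:ℂ)).re = 1 / B := by
    rw [← Complex.ofReal_one, ← Complex.ofReal_div, Complex.ofReal_re]
  have hare : a.re = 1 / B := by
    rw [ha, Complex.add_re, hre]; simp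
  have ha're : a'.re = 1 / B := by
    rw [ha', Complex.sub_re, hre]; simp
  have hBp : 0 < 1 / B := by positivity
  have ha1 : (-a).re < 0 := by rw [Complex.neg_re, hare]; linarith
  have ha2 : 0 < a'.re := by rw [ha're]; exact hBp
  have e1 : EqOn (fun t : ℝ => ((Real.exp (-(|t| / B)) : ℝ) : ℂ) *
      Complex.exp (-((t * x : ℝ) : ℂ) * I)) (fun t : ℝ => Complex.exp (-a * t)) (Ioi 0) := by
    intro t ht
    have ht0 : (0:ℝ) < t := ht
    simp only
    rw [abs_of_pos ht0, Complex.ofReal_exp, ← Complex.exp_add]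
    congr 1
    rw [ha]
    push_cast
    field_simp
    ring
  have e2 : EqOn (fun t : ℝ => ((Real.exp (-(|t| / B)) : ℝ) : ℂ) *
      Complex.exp (-((t * x : ℝ) : ℂ) * I)) (fun t : ℝ => Complex.exp (a' * t)) (Iic 0) := by
    intro t ht
    have ht0 : t ≤ (0:ℝ) := ht
    simp only
    rw [abs_of_nonpos ht0, Complex.ofReal_exp, ← Complex.exp_add]
    congr 1
    rw [ha']
    push_cast
    field_simp
    ring
  have i1 : IntegrableOn (fun t : ℝ => ((Real.exp (-(|t| / B)) : ℝ) : ℂ) *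
      Complex.exp (-((t * x : ℝ) : ℂ) * I)) (Ioi 0) :=
    (integrableOn_exp_mul_complex_Ioi ha1 0).congr_fun e1.symm measurableSet_Ioi
  have i2 : IntegrableOn (fun t : ℝ => ((Real.exp (-(|t| / B)) : ℝ) : ℂ) *
      Complex.exp (-((t * x : ℝ) : ℂ) * I)) (Iic 0) :=
    (integrableOn_exp_mul_complex_Iic ha2 0).congr_fun e2.symm measurableSet_Iic
  constructor
  · have h3 := i2.union i1
    rwa [Iic_union_Ioi, integrableOn_univ] at h3
  · rw [← intervalIntegral.integral_Iic_add_Ioi i2 i1, setIntegral_congr_fun measurableSet_Ioi e1,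
      setIntegral_congr_fun measurableSet_Iic e2, integral_exp_mul_complex_Ioi ha1,
      integral_exp_mul_complex_Iic ha2]
    have hane : a ≠ 0 := by
      intro h
      rw [h, Complex.zero_re] at hare
      linarith
    have ha'ne : a' ≠ 0 := by
      intro h
      rw [h, Complex.zero_re] at ha're
      linarith
    have hmul : a * a' = 1 / (B:ℂ) ^ 2 + (x:ℂ) ^ 2 := by
      rw [ha, ha']
      ring_nf
      rw [Complex.I_sq]
      ring
    have hD : (0:ℝ) < 1 + B ^ 2 * x ^ 2 := by positivity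
    have hD' : (1:ℂ) + (B:ℂ) ^ 2 * (x:ℂ) ^ 2 ≠ 0 := by exact_mod_cast hD.ne'
    simp only [Complex.ofReal_zero, mul_zero, Complex.exp_zero]
    have h4 : (1:ℂ) / a' + -1 / -a = (a + a') / (a * a') := by
      field_simp
    rw [h4, hmul]
    have h5 : a + a' = 2 / B := by rw [ha, ha']; ring
    rw [h5]
    unfold K
    push_cast
    field_simp

/-! ## the kernel lemma -/

theorem zker {X : Type*} [MeasurableSpace X] (μ : Measure X) [IsFiniteMeasure μ]
    (h z1 : X → ℂ) (s : X → ℝ) (hh : Measurable h) (hz1 : Measurable z1) (hs : Measurable s)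
    (M : ℝ) (hM : ∀ x, ‖h x‖ ≤ M) (h1 : ∀ x, 0 ≤ (z1 x).re)
    (q : ℕ) (A B : ℝ) (hA : 0 < A) (hB : 0 < B) :
    ∫⁻ r in Ioi (0 : ℝ), ∫⁻ t : ℝ, ENNReal.ofReal (ka q A r * Real.exp (-(|t| / B)) *
        ‖∫ x, h x * Complex.exp (-((r : ℂ) * z1 x) - ((t * s x : ℝ) : ℂ) * I) ∂μ‖ ^ 2) ≤
      ENNReal.ofReal (2 * (q.factorial : ℝ)) * ∫⁻ x, ∫⁻ x', ENNReal.ofReal (‖h x‖ * ‖h x'‖ *
        (A / ‖1 + (A : ℂ) * (z1 x + (starRingEnd ℂ) (z1 x'))‖ ^ (q + 1)) *
        K B (s x - s x')) ∂μ ∂μ := by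
  have hKn : ∀ y, 0 ≤ K B y := fun y => by unfold K; positivity
  have hKm : Measurable (K B) := by
    have : Continuous (K B) := by
      unfold K
      refine continuous_const.div (by fun_prop) fun y => ?_
      positivity
    exact this.measurable
  set ν1 : Measure ℝ := volume.restrict (Ioi (0:ℝ)) with hν1
  set ν : Measure (ℝ × ℝ) := ν1.prod volume with hν
  set e : ℝ × ℝ → X → ℂ := fun p x =>
    h x * Complex.exp (-((p.1 : ℂ) * z1 x) - ((p.2 * s x : ℝ) : ℂ) * I) with he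
  have hem : Measurable (fun y : (ℝ × ℝ) × X => e y.1 y.2) := by
    rw [he]; fun_prop
  set T : ℝ × ℝ → ℂ := fun p => ∫ x, e p x ∂μ with hT
  have hTm : Measurable T := by
    have := (show StronglyMeasurable (Function.uncurry e) from
      hem.stronglyMeasurable).integral_prod_right (ν := μ)
    exact this.measurable
  set g : ℝ × ℝ → ℝ := fun p => ka q A p.1 * Real.exp (-(|p.2| / B)) * ‖T p‖ ^ 2 with hg
  have hgm : Measurable g := by
    rw [hg]
    have a1 := (ka_cont q A).measurable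
    fun_prop
  have hae : ∀ᵐ p ∂ν, 0 < p.1 := by
    have h0 : ∀ᵐ r ∂ν1, 0 < r := by
      rw [hν1]
      exact ae_restrict_mem measurableSet_Ioi
    exact (Measure.quasiMeasurePreserving_fst (μ := ν1) (ν := volume)).ae h0
  have hle : ∀ p : ℝ × ℝ, 0 < p.1 → ∀ x, ‖e p x‖ ≤ M := by
    intro p hp1 x
    rw [he]
    simp only
    rw [norm_mul, Complex.norm_exp]
    have h3 : (-((p.1 : ℂ) * z1 x) - ((p.2 * s x : ℝ) : ℂ) * I).re ≤ 0 := by
      simp only [Complex.sub_re, Complex.neg_re, Complex.mul_re, Complex.ofReal_re,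
        Complex.ofReal_im, zero_mul, sub_zero, Complex.I_re, Complex.I_im, mul_zero]
      have := mul_nonneg hp1.le (h1 x)
      linarith
    calc ‖h x‖ * Real.exp _ ≤ ‖h x‖ * 1 :=
          mul_le_mul_of_nonneg_left (Real.exp_le_one_iff.mpr h3) (norm_nonneg _)
      _ ≤ M := by rw [mul_one]; exact hM x
  have hexi : Integrable (fun t : ℝ => Real.exp (-(|t| / B))) := by
    have h0 := (zk_exp B hB 0).1.norm
    refine h0.congr (Filter.Eventually.of_forall fun t => ?_)
    simp only [mul_zero, Complex.ofReal_zero, neg_zero, zero_mul, Complex.exp_zero, mul_one]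
    rw [Complex.norm_real, Real.norm_of_nonneg (Real.exp_pos _).le]
  have hkk : Integrable (fun p : ℝ × ℝ => ka q A p.1 * Real.exp (-(|p.2| / B))) ν :=
    (ka_integrable q hA).mul_prod hexi
  -- the big integrand
  set Ψ : ℝ × ℝ → X × X → ℂ := fun p x =>
    ((ka q A p.1 : ℝ) : ℂ) * ((Real.exp (-(|p.2| / B)) : ℝ) : ℂ) * (e p x.1 * (starRingEnd ℂ) (e p x.2)) with hΨ
  have hΨm : Measurable (Function.uncurry Ψ) := by
    have a1 := (ka_cont q A).measurable
    have a2 : Measurable (fun t : ℝ => Real.exp (-(|t| / B))) := by fun_prop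
    have a3 : Measurable (fun y : (ℝ × ℝ) × (X × X) => e y.1 y.2.1) :=
      hem.comp (measurable_fst.prodMk (measurable_fst.comp measurable_snd))
    have a4 : Measurable (fun y : (ℝ × ℝ) × (X × X) => e y.1 y.2.2) :=
      hem.comp (measurable_fst.prodMk (measurable_snd.comp measurable_snd))
    have a5 : Measurable (fun y : (ℝ × ℝ) × (X × X) => (starRingEnd ℂ) (e y.1 y.2.2)) :=
      (continuous_star (R := ℂ)).measurable.comp a4
    have a6 : Measurable (fun y : (ℝ × ℝ) × (X × X) => ((ka q A y.1.1 : ℝ) : ℂ)) :=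
      Complex.measurable_ofReal.comp (a1.comp (measurable_fst.comp measurable_fst))
    have a7 : Measurable (fun y : (ℝ × ℝ) × (X × X) => ((Real.exp (-(|y.1.2| / B)) : ℝ) : ℂ)) :=
      Complex.measurable_ofReal.comp (a2.comp (measurable_snd.comp measurable_fst))
    exact (a6.mul a7).mul (a3.mul a5)
  have hΨi : Integrable (Function.uncurry Ψ) (ν.prod (μ.prod μ)) := by
    have hdom : Integrable (fun y : (ℝ × ℝ) × (X × X) =>
        (M ^ 2 * (ka q A y.1.1 * Real.exp (-(|y.1.2| / B))))) (ν.prod (μ.prod μ)) :=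
      (hkk.const_mul (M ^ 2)).comp_fst (μ.prod μ)
    refine hdom.mono' hΨm.aestronglyMeasurable ?_
    have := (Measure.quasiMeasurePreserving_fst (μ := ν) (ν := μ.prod μ)).ae hae
    filter_upwards [this] with y hy
    simp only [Function.uncurry, hΨ]
    rw [norm_mul, norm_mul, norm_mul, RCLike.norm_conj, Complex.norm_real, Complex.norm_real,
      Real.norm_of_nonneg (ka_nonneg q hA hy.le), Real.norm_of_nonneg (Real.exp_pos _).le]
    have b1 := hle y.1 hy y.2.1
    have b2 := hle y.1 hy y.2.2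
    have b3 : 0 ≤ ka q A y.1.1 * Real.exp (-(|y.1.2| / B)) :=
      mul_nonneg (ka_nonneg q hA hy.le) (Real.exp_pos _).le
    have b4 : ‖e y.1 y.2.1‖ * ‖e y.1 y.2.2‖ ≤ M ^ 2 := by
      rw [sq]
      exact mul_le_mul b1 b2 (norm_nonneg _) ((norm_nonneg _).trans b1)
    calc _ ≤ (ka q A y.1.1 * Real.exp (-(|y.1.2| / B))) * M ^ 2 := mul_le_mul_of_nonneg_left b4 b3
      _ = _ := by ring
  -- the inner integral in (x, x')
  have hin : ∀ p : ℝ × ℝ, ∫ x, Ψ p x ∂(μ.prod μ) = ((g p : ℝ) : ℂ) := by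
    intro p
    rw [hΨ]
    simp only
    rw [integral_const_mul, integral_prod_mul (f := fun x => e p x)
      (g := fun x => (starRingEnd ℂ) (e p x)), integral_conj, Complex.mul_conj, hg]
    simp only
    rw [Complex.normSq_eq_norm_sq]
    push_cast
    rfl
  have hgi : Integrable g ν := by
    have h3 := hΨi.integral_prod_left
    have h4 : Integrable (fun p => ((g p : ℝ) : ℂ)) ν := by
      refine h3.congr (Filter.Eventually.of_forall fun p => ?_)
      exact hin p
    have h5 := h4.re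
    simpa using h5
  have hg0 : 0 ≤ᵐ[ν] g := by
    filter_upwards [hae] with p hp
    rw [hg]
    exact mul_nonneg (mul_nonneg (ka_nonneg q hA hp.le) (Real.exp_pos _).le) (sq_nonneg _)
  -- the inner integral in (r, t)
  set c1 : X × X → ℂ := fun x => z1 x.1 + (starRingEnd ℂ) (z1 x.2) with hc1
  set c2 : X × X → ℝ := fun x => s x.1 - s x.2 with hc2
  set H : X × X → ℂ := fun x => h x.1 * (starRingEnd ℂ) (h x.2) *
    (((q.factorial : ℂ) * ((A : ℂ) / (1 + (A:ℂ) * c1 x) ^ (q+1))) *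
      ((2 * K B (c2 x) : ℝ) : ℂ)) with hH
  have hin2 : ∀ x : X × X, ∫ p, Ψ p x ∂ν = H x := by
    intro x
    have e1 : ∀ p : ℝ × ℝ, Ψ p x = h x.1 * (starRingEnd ℂ) (h x.2) *
        ((((ka q A p.1 : ℝ) : ℂ) * Complex.exp (-((p.1:ℂ) * c1 x))) *
        (((Real.exp (-(|p.2| / B)) : ℝ) : ℂ) * Complex.exp (-((p.2 * c2 x : ℝ) : ℂ) * I))) := by
      intro p
      simp only [hΨ, he, hc1, hc2, map_mul, ← Complex.exp_conj, map_sub, map_neg,
        Complex.conj_ofReal, Complex.conj_I]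
      have e2 : Complex.exp (-((p.1:ℂ) * (z1 x.1 + (starRingEnd ℂ) (z1 x.2)))) *
          Complex.exp (-((p.2 * (s x.1 - s x.2) : ℝ) : ℂ) * I) =
          Complex.exp (-((p.1:ℂ) * z1 x.1) - ((p.2 * s x.1 : ℝ) : ℂ) * I) *
          Complex.exp (-((p.1:ℂ) * (starRingEnd ℂ) (z1 x.2)) -
            ((p.2 * s x.2 : ℝ) : ℂ) * -I) := by
        rw [← Complex.exp_add, ← Complex.exp_add]
        congr 1
        push_cast
        ring
      linear_combination (-(((ka q A p.1 : ℝ) : ℂ) * ((Real.exp (-(|p.2| / B)) : ℝ) : ℂ) *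
        h x.1 * (starRingEnd ℂ) (h x.2))) * e2
    simp_rw [e1]
    rw [integral_const_mul, integral_prod_mul
      (f := fun r : ℝ => ((ka q A r : ℝ) : ℂ) * Complex.exp (-((r:ℂ) * c1 x)))
      (g := fun t : ℝ => ((Real.exp (-(|t| / B)) : ℝ) : ℂ) *
        Complex.exp (-((t * c2 x : ℝ) : ℂ) * I))]
    have r1 : 0 ≤ (c1 x).re := by
      simp only [hc1, Complex.add_re, Complex.conj_re]
      have := h1 x.1; have := h1 x.2; linarith
    rw [ka_laplace q hA _ r1, (zk_exp B hB (c2 x)).2]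
  -- Fubini
  have hswap : ((∫ p, g p ∂ν : ℝ) : ℂ) = ∫ x, H x ∂(μ.prod μ) := by
    rw [← integral_complex_ofReal]
    calc ∫ p, ((g p : ℝ) : ℂ) ∂ν = ∫ p, ∫ x, Ψ p x ∂(μ.prod μ) ∂ν := by
          apply integral_congr_ae
          exact Filter.Eventually.of_forall fun p => (hin p).symm
      _ = ∫ x, ∫ p, Ψ p x ∂ν ∂(μ.prod μ) := integral_integral_swap hΨi
      _ = ∫ x, H x ∂(μ.prod μ) := by
          apply integral_congr_ae
          exact Filter.Eventually.of_forall fun x => hin2 x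
  -- conclusion
  have hLHS : ∫⁻ r in Ioi (0 : ℝ), ∫⁻ t : ℝ, ENNReal.ofReal (ka q A r * Real.exp (-(|t| / B)) *
        ‖∫ x, h x * Complex.exp (-((r : ℂ) * z1 x) - ((t * s x : ℝ) : ℂ) * I) ∂μ‖ ^ 2) =
        ENNReal.ofReal (∫ p, g p ∂ν) := by
    rw [ofReal_integral_eq_lintegral_ofReal hgi hg0, hν,
      lintegral_prod _ (by exact (ENNReal.measurable_ofReal.comp hgm).aemeasurable)]
  rw [hLHS]
  have hHn : ∀ x : X × X, ‖H x‖ₑ = ENNReal.ofReal (2 * (q.factorial : ℝ)) *
      ENNReal.ofReal (‖h x.1‖ * ‖h x.2‖ *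
        (A / ‖1 + (A : ℂ) * (z1 x.1 + (starRingEnd ℂ) (z1 x.2))‖ ^ (q + 1)) *
        K B (s x.1 - s x.2)) := by
    intro x
    rw [← ENNReal.ofReal_mul (by positivity), ← ofReal_norm]
    congr 1
    simp only [hH, hc1, hc2]
    rw [norm_mul, norm_mul, norm_mul, norm_mul, norm_div, norm_pow,
      RCLike.norm_conj, Complex.norm_real, Complex.norm_real, Real.norm_of_nonneg hA.le,
      Real.norm_of_nonneg (mul_nonneg zero_le_two (hKn _)), Complex.norm_natCast]
    ring
  calc ENNReal.ofReal (∫ p, g p ∂ν) = ‖((∫ p, g p ∂ν : ℝ) : ℂ)‖ₑ := by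
        rw [← ofReal_norm, Complex.norm_real,
          Real.norm_of_nonneg (integral_nonneg_of_ae hg0)]
    _ = ‖∫ x, H x ∂(μ.prod μ)‖ₑ := by rw [hswap]
    _ ≤ ∫⁻ x, ‖H x‖ₑ ∂(μ.prod μ) := enorm_integral_le_lintegral_enorm _
    _ = ∫⁻ x, ENNReal.ofReal (2 * (q.factorial : ℝ)) *
      ENNReal.ofReal (‖h x.1‖ * ‖h x.2‖ *
        (A / ‖1 + (A : ℂ) * (z1 x.1 + (starRingEnd ℂ) (z1 x.2))‖ ^ (q + 1)) *
        K B (s x.1 - s x.2)) ∂(μ.prod μ) :=
        lintegral_congr hHn
    _ = _ := by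
        have hstar : Measurable (starRingEnd ℂ : ℂ → ℂ) := (continuous_star (R := ℂ)).measurable
        rw [lintegral_const_mul _ (by fun_prop)]
        congr 1
        rw [lintegral_prod _ (by fun_prop)]

end Pool.Agent.H438R2.ZD
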