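import Mathlib
import Pool.Agent.H97.L.S8.H438R2.ZD.Defs
import Pool.Agent.H97.L.S8.H438R2.BR.Meas
import Pool.Agent.H97.L.S8.H438R2.BR.T11
set_option autoImplicit false

/-! Z6: reduction for zonal densities -/

namespace Pool.Agent.H438R2.ZD

open MeasureTheory Set Complex
open scoped ENNReal RealInnerProductSpace
open Pool.Agent.H789R2.FR (E sg)
open Pool.Agent.H438R2.BR (Phi Q K ka J)
open Pool.Agent.H438R2.BR.T10 (e0 e0_norm)
open Pool.Agent.H438R2.BR.T11 (wt wt_meas wt_le nu par par_meas sg_eq)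

namespace Z6

theorem sg_one_eq : sg 1 = Measure.dirac e0 + Measure.dirac (-e0) := by
  refine Measure.ext_of_lintegral _ fun g hg => ?_
  rw [Pool.Agent.H438R2.BR.T10.sg_one g, lintegral_add_measure, lintegral_dirac' _ hg,
    lintegral_dirac' _ hg]

theorem int_sg_one (g : E 1 → ℂ) : ∫ v, g v ∂(sg 1) = g e0 + g (-e0) := by
  rw [sg_one_eq, integral_add_measure, integral_dirac, integral_dirac]
  · exact integrable_dirac (by simp)
  · exact integrable_dirac (by simp)

theorem Fz_int (k : ℕ) (hk : 2 ≤ k) (G : ℝ → ℂ) (hG : Measurable G) (M : ℝ)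
    (hM : ∀ θ, ‖G θ‖ ≤ M) (r t : ℝ) :
    IntegrableOn (fun θ => G θ * (((Real.cos θ) ^ (k - 1) : ℝ) : ℂ) *
    (Phi k (r * Real.cos θ) * Complex.exp (-((t * Real.sin θ : ℝ) : ℂ) * I))) Q := by
  have hM0 : 0 ≤ M := (norm_nonneg _).trans (hM 0)
  have hPm := Pool.Agent.H438R2.BR.Phi_meas k
  have hQ : volume Q < ⊤ := by
    unfold Q; rw [Real.volume_Ioo]; exact ENNReal.ofReal_lt_top
  have : IsFiniteMeasure (volume.restrict Q) := ⟨by rw [Measure.restrict_apply_univ]; exact hQ⟩
  refine Integrable.mono' (integrable_const (M * Real.pi)) ?_ ?_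
  · apply Measurable.aestronglyMeasurable
    have h1 : Measurable fun θ : ℝ => (((Real.cos θ) ^ (k - 1) : ℝ) : ℂ) := by fun_prop
    have h2 : Measurable fun θ : ℝ => Phi k (r * Real.cos θ) := hPm.comp (by fun_prop)
    have h3 : Measurable fun θ : ℝ => Complex.exp (-((t * Real.sin θ : ℝ) : ℂ) * I) := by fun_prop
    exact (hG.mul h1).mul (h2.mul h3)
  · refine Filter.Eventually.of_forall fun θ => ?_
    rw [norm_mul, norm_mul, norm_mul, Complex.norm_real, Real.norm_eq_abs, abs_pow]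
    have a1 : |Real.cos θ| ^ (k - 1) ≤ 1 := pow_le_one₀ (abs_nonneg _) (Real.abs_cos_le_one θ)
    have a4 := Pool.Agent.H438R2.BR.Phi_le k hk (r * Real.cos θ)
    have a5 : ‖Complex.exp (-((t * Real.sin θ : ℝ) : ℂ) * I)‖ = 1 := by
      have h2 : -((t * Real.sin θ : ℝ) : ℂ) * I = ((-(t * Real.sin θ) : ℝ) : ℂ) * I := by
        push_cast; ring
      rw [h2]
      exact Complex.norm_exp_ofReal_mul_I _
    rw [a5, mul_one]
    calc ‖G θ‖ * |Real.cos θ| ^ (k - 1) * ‖Phi k (r * Real.cos θ)‖ ≤ M * 1 * Real.pi := by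
          gcongr
          exact hM θ
      _ = _ := by ring

end Z6

open Z6 in
/-- Z6: reduction -/
theorem zreduction (k : ℕ) (hk : 2 ≤ k) (γ : ℝ → ℂ) (hγ : Measurable γ)
    (M : ℝ) (hM : ∀ s, ‖γ s‖ ≤ M) (x : E k) (y : E 1) :
    ∫ z, Complex.exp (-((⟪J x y, z⟫ : ℝ) : ℂ) * I) * γ (z (Fin.natAdd k 0)) ∂(sg (k + 1)) =
      ((sg (k - 1)).real univ : ℂ) *
        (Fz k (fun θ => γ (Real.sin θ)) ‖x‖ (y 0) +
          Fz k (fun θ => γ (-Real.sin θ)) ‖x‖ (-(y 0))) := by
  set f : E (k + 1) → ℂ := fun z =>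
    Complex.exp (-((⟪J x y, z⟫ : ℝ) : ℂ) * I) * γ (z (Fin.natAdd k 0)) with hf
  have hfm : Measurable f := by
    apply Measurable.mul
    · have h1 : Continuous fun z : E (k + 1) =>
          Complex.exp (-((⟪J x y, z⟫ : ℝ) : ℂ) * I) := by fun_prop
      exact h1.measurable
    · have h1 : Continuous fun z : E (k + 1) => z (Fin.natAdd k 0) := by fun_prop
      exact hγ.comp h1.measurable
  have hfb : ∀ z, ‖f z‖ ≤ M := by
    intro z
    simp only [hf]
    rw [norm_mul]
    have h1 : ‖Complex.exp (-((⟪J x y, z⟫ : ℝ) : ℂ) * I)‖ = 1 := by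
      have h2 : -((⟪J x y, z⟫ : ℝ) : ℂ) * I = ((-⟪J x y, z⟫ : ℝ) : ℂ) * I := by push_cast; ring
      rw [h2]
      exact Complex.norm_exp_ofReal_mul_I _
    rw [h1, one_mul]
    exact hM _
  rw [sg_eq k 1 (by omega) (by omega),
    integral_map (par_meas k 1).aemeasurable hfm.aestronglyMeasurable]
  have hint : Integrable (fun p => f (par k 1 p)) ((nu k 1).prod ((sg k).prod (sg 1))) := by
    refine Integrable.mono' (integrable_const M) (hfm.comp (par_meas k 1)).aestronglyMeasurable ?_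
    exact Filter.Eventually.of_forall fun p => hfb _
  rw [integral_prod _ hint]
  unfold nu
  rw [integral_withDensity_eq_integral_toReal_smul (wt_meas k 1)
    (Filter.Eventually.of_forall fun θ => (wt_le k 1 θ).trans_lt ENNReal.one_lt_top)]
  unfold Fz
  have i1 := Fz_int k hk (fun θ => γ (Real.sin θ)) (hγ.comp Real.measurable_sin) M
    (fun θ => hM _) ‖x‖ (y 0)
  have i2 := Fz_int k hk (fun θ => γ (-Real.sin θ)) (hγ.comp Real.measurable_sin.neg) M
    (fun θ => hM _) ‖x‖ (-(y 0))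
  rw [← integral_add i1 i2, ← integral_const_mul]
  refine setIntegral_congr_fun (by unfold Q; exact measurableSet_Ioo) ?_
  intro θ hθ
  have hcos : 0 < Real.cos θ := by
    unfold Q at hθ
    exact Real.cos_pos_of_mem_Ioo ⟨by linarith [hθ.1, Real.pi_pos], hθ.2⟩
  have hw : (wt k 1 θ).toReal = (Real.cos θ) ^ (k - 1) := by
    unfold wt
    rw [Nat.sub_self, pow_zero, mul_one, ENNReal.toReal_ofReal (by positivity)]
  -- the inner integral
  have inner : ∫ p : E k × E 1, f (par k 1 (θ, p)) ∂((sg k).prod (sg 1)) =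
      (((sg (k - 1)).real univ : ℂ) * Phi k (‖x‖ * Real.cos θ)) *
        (Complex.exp (-((y 0 * Real.sin θ : ℝ) : ℂ) * I) * γ (Real.sin θ) +
          Complex.exp (-((-(y 0) * Real.sin θ : ℝ) : ℂ) * I) * γ (-Real.sin θ)) := by
    have h1 : ∀ p : E k × E 1, f (par k 1 (θ, p)) =
        Complex.exp (-((⟪Real.cos θ • x, p.1⟫ : ℝ) : ℂ) * I) *
          (Complex.exp (-((y 0 * (Real.sin θ * p.2 0) : ℝ) : ℂ) * I) *
            γ (Real.sin θ * p.2 0)) := by
      intro p
      simp only [hf, par]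
      rw [Pool.Agent.H438R2.BR.J_inner, ← mul_assoc, ← Complex.exp_add]
      have e1 : (J (Real.cos θ • p.1) (Real.sin θ • p.2)) (Fin.natAdd k 0) =
          Real.sin θ * p.2 0 := by
        simp [J]
      rw [e1]
      congr 2
      have e2 : (⟪y, Real.sin θ • p.2⟫ : ℝ) = y 0 * (Real.sin θ * p.2 0) := by
        rw [inner_smul_right]
        simp [PiLp.inner_apply]
        ring
      rw [e2, inner_smul_right, real_inner_smul_left]
      push_cast
      ring
    simp only [h1]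
    rw [integral_prod_mul (fun u : E k => Complex.exp (-((⟪Real.cos θ • x, u⟫ : ℝ) : ℂ) * I))
      (fun v : E 1 => Complex.exp (-((y 0 * (Real.sin θ * v 0) : ℝ) : ℂ) * I) *
            γ (Real.sin θ * v 0)),
      Pool.Agent.H438R2.BR.sphere_ft k hk, norm_smul, Real.norm_eq_abs,
      abs_of_pos hcos, mul_comm (Real.cos θ), int_sg_one]
    have e3 : e0 0 = (1 : ℝ) := by simp [e0]
    have e4 : (-e0 : E 1) 0 = (-1 : ℝ) := by simp [e0]
    rw [e3, e4]
    congr 2
    · rw [mul_one]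
    · have e5 : Real.sin θ * -1 = -Real.sin θ := by ring
      rw [e5]
      congr 3
      push_cast
      ring
  simp only
  rw [inner, hw, Complex.real_smul]
  ring

end Pool.Agent.H438R2.ZD
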