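import Mathlib
import Pool.Agent.H97.L.Tf0cf7b00.H438R2.ZD.Z5
import Pool.Agent.H97.L.Tf0cf7b00.H438R2.ZD.Z6
import Pool.Agent.H97.L.S8.H438R2.BR.T11
import Pool.Agent.H97.L.Tf0cf7b00.H438R2.BR.T12
import Pool.Agent.H97.L.Tf0cf7b00.H438R2.BR.Fam
set_option autoImplicit false

/-! Zonal densities: the `L^p` bound. -/

namespace Pool.Agent.H438R2.ZD

open MeasureTheory Set Complex
open scoped ENNReal RealInnerProductSpace
open Pool.Agent.H789R2.FR (E sg sg_ae sg_inv sg_finite)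
open Pool.Agent.H438R2.BR (J J_mp T12_radial)
open Pool.Agent.H438R2.BR

/-- the extension operator of a density depending on the last coordinate -/
noncomputable def TZ (k : ℕ) (γ : ℝ → ℂ) (x : E (k + 1)) : ℂ :=
  ∫ z, Complex.exp (-((⟪x, z⟫ : ℝ) : ℂ) * I) * γ (z (Fin.natAdd k 0)) ∂(sg (k + 1))

theorem last_meas (k : ℕ) : Measurable fun z : E (k + 1) => z (Fin.natAdd k 0) := by
  fun_prop

theorem TZ_meas (k : ℕ) (γ : ℝ → ℂ) (hγ : Measurable γ) : Measurable (TZ k γ) := by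
  unfold TZ
  have : IsFiniteMeasure (sg (k + 1)) := sg_finite _
  apply StronglyMeasurable.measurable
  apply StronglyMeasurable.integral_prod_right (f := fun (x z : E (k + 1)) =>
    Complex.exp (-((⟪x, z⟫ : ℝ) : ℂ) * I) * γ (z (Fin.natAdd k 0)))
  apply Measurable.stronglyMeasurable
  change Measurable fun p : E (k + 1) × E (k + 1) =>
    Complex.exp (-((⟪p.1, p.2⟫ : ℝ) : ℂ) * I) * γ (p.2 (Fin.natAdd k 0))
  have h1 : Measurable fun p : E (k + 1) × E (k + 1) => γ (p.2 (Fin.natAdd k 0)) :=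
    hγ.comp ((last_meas k).comp measurable_snd)
  have h2 : Measurable fun p : E (k + 1) × E (k + 1) => (⟪p.1, p.2⟫ : ℝ) :=
    (continuous_inner (𝕜 := ℝ)).measurable
  have h3 : Measurable fun p : E (k + 1) × E (k + 1) =>
      Complex.exp (-((⟪p.1, p.2⟫ : ℝ) : ℂ) * I) :=
    Complex.measurable_exp.comp ((Complex.measurable_ofReal.comp h2).neg.mul_const I)
  exact h3.mul h1

theorem TZ_le (k : ℕ) (γ : ℝ → ℂ) (M : ℝ) (hM : ∀ s, ‖γ s‖ ≤ M) (x : E (k + 1)) :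
    ‖TZ k γ x‖ ≤ M * (sg (k + 1)).real univ := by
  have : IsFiniteMeasure (sg (k + 1)) := sg_finite _
  unfold TZ
  apply norm_integral_le_of_norm_le_const
  refine Filter.Eventually.of_forall fun z => ?_
  rw [norm_mul]
  have : ‖Complex.exp (-((⟪x, z⟫ : ℝ) : ℂ) * I)‖ = 1 := by
    have h : -((⟪x, z⟫ : ℝ) : ℂ) * I = ((-(⟪x, z⟫ : ℝ) : ℝ) : ℂ) * I := by push_cast; ring
    rw [h, Complex.norm_exp_ofReal_mul_I]
  rw [this, one_mul]
  exact hM _

theorem line_int (f : ℝ → ℝ≥0∞) (hf : Measurable f) : ∫⁻ y : E 1, f (y 0) = ∫⁻ t : ℝ, f t := by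
  have h1 := (EuclideanSpace.volume_preserving_symm_measurableEquiv_toLp (Fin 1)).symm
  have h2 := volume_preserving_funUnique (Fin 1) ℝ
  have h3 := h2.comp h1.symm
  rw [← h3.lintegral_comp hf]
  rfl

theorem add_rpow_le (a b p : ℝ) (ha : 0 ≤ a) (hb : 0 ≤ b) (hp : 0 ≤ p) :
    (a + b) ^ p ≤ 2 ^ p * (a ^ p + b ^ p) := by
  rcases le_total a b with h | h
  · calc (a + b) ^ p ≤ (2 * b) ^ p := by
          gcongr
          linarith
      _ = 2 ^ p * b ^ p := Real.mul_rpow (by norm_num) hb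
      _ ≤ _ := by
          have : 0 ≤ a ^ p := Real.rpow_nonneg ha p
          gcongr
          linarith
  · calc (a + b) ^ p ≤ (2 * a) ^ p := by
          gcongr
          linarith
      _ = 2 ^ p * a ^ p := Real.mul_rpow (by norm_num) ha
      _ ≤ _ := by
          have : 0 ≤ b ^ p := Real.rpow_nonneg hb p
          gcongr
          linarith

/-- the integral over the space of the profile -/
theorem space_z (k : ℕ) (hk : 2 ≤ k) (p : ℝ) (G : ℝ → ℂ) (hG : Measurable G) (ε : ℝ)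
    (hε : ε = 1 ∨ ε = -1) :
    ∫⁻ q : E k × E 1, ENNReal.ofReal (‖Fz k G ‖q.1‖ (ε * q.2 0)‖ ^ p)
      ∂((volume : Measure (E k)).prod (volume : Measure (E 1))) =
    sg k univ * ∫⁻ r in Ioi (0 : ℝ), ∫⁻ t, ENNReal.ofReal (‖Fz k G r t‖ ^ p * r ^ (k - 1)) := by
  have hF := Fz_meas k G hG
  set H : ℝ × ℝ → ℝ≥0∞ := fun q => ENNReal.ofReal (‖Fz k G q.1 q.2‖ ^ p) with hH
  have hHm : Measurable H := (hF.norm.pow_const p).ennreal_ofReal
  have hL : ∫⁻ q : E k × E 1, ENNReal.ofReal (‖Fz k G ‖q.1‖ (ε * q.2 0)‖ ^ p)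
      ∂((volume : Measure (E k)).prod (volume : Measure (E 1))) =
      ∫⁻ x : E k, ∫⁻ y : E 1, H (‖x‖, ε * y 0) := by
    have hn1 : Measurable fun q : E k × E 1 => ‖q.1‖ := measurable_fst.norm
    have hn2 : Measurable fun q : E k × E 1 => ε * q.2 0 := by fun_prop
    have hn3 : Measurable fun q : E k × E 1 => H (‖q.1‖, ε * q.2 0) := hHm.comp (hn1.prodMk hn2)
    exact lintegral_prod (μ := (volume : Measure (E k))) (ν := (volume : Measure (E 1)))
      (fun q : E k × E 1 => H (‖q.1‖, ε * q.2 0)) hn3.aemeasurable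
  rw [hL]
  have h2 : ∀ x : E k, ∫⁻ y : E 1, H (‖x‖, ε * y 0) = ∫⁻ t, H (‖x‖, t) := by
    intro x
    have hm1 : Measurable fun t => H (‖x‖, t) := hHm.comp measurable_prodMk_left
    have hm2 : Measurable fun t => H (‖x‖, ε * t) := hm1.comp (measurable_const_mul ε)
    rw [line_int (fun t => H (‖x‖, ε * t)) hm2]
    rcases hε with h | h
    · subst h
      simp only [one_mul]
    · subst h
      simp only [neg_mul, one_mul]
      exact lintegral_neg_eq_self (fun t => H (‖x‖, t))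
  simp_rw [h2]
  have h1 : Measurable fun r : ℝ => ∫⁻ t, H (r, t) := Measurable.lintegral_prod_right hHm
  rw [T12_radial (by omega : 0 < k) (fun r => ∫⁻ t, H (r, t)) h1]
  congr 1
  refine setLIntegral_congr_fun measurableSet_Ioi ?_
  intro r hr
  have hr0 : 0 ≤ r := le_of_lt hr
  change ENNReal.ofReal (r ^ (k - 1)) * ∫⁻ t, H (r, t) = _
  rw [← lintegral_const_mul' _ _ ENNReal.ofReal_ne_top]
  congr 1
  ext t
  simp only [hH]
  rw [← ENNReal.ofReal_mul (by positivity)]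
  congr 1
  ring

theorem core_lt (k : ℕ) (hk : 2 ≤ k) (p : ℝ) (hp : 2 * ((k : ℝ) + 1) / k < p) (hp4 : p < 4) :
    ∃ C : ℝ, 0 < C ∧ ∀ (γ : ℝ → ℂ) (M : ℝ), Measurable γ → (∀ s, ‖γ s‖ ≤ M) →
    ∫⁻ x : E (k + 1), ENNReal.ofReal (‖TZ k γ x‖ ^ p) ≤ ENNReal.ofReal (C * M ^ p) := by
  obtain ⟨C, hC, hpl⟩ := zplanar k hk p hp hp4
  have f1 : IsFiniteMeasure (sg k) := sg_finite _
  have hkr : (2 : ℝ) ≤ k := by exact_mod_cast hk
  have hp0 : 0 < p := by
    rw [div_lt_iff₀ (by linarith)] at hp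
    nlinarith
  set c : ℝ := ‖((sg (k - 1)).real univ : ℂ)‖ with hc
  have hc0 : 0 ≤ c := norm_nonneg _
  refine ⟨c ^ p * 2 ^ p * (2 * ((sg k).real univ * C)) + 1, by positivity, ?_⟩
  intro γ M hγ hM
  have hM0 : 0 ≤ M := (norm_nonneg _).trans (hM 0)
  set G1 : ℝ → ℂ := fun θ => γ (Real.sin θ) with hG1d
  set G2 : ℝ → ℂ := fun θ => γ (-Real.sin θ) with hG2d
  have hG1 : Measurable G1 := hγ.comp Real.measurable_sin
  have hG2 : Measurable G2 := hγ.comp Real.measurable_sin.neg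
  have hG1M : ∀ θ : ℝ, ‖G1 θ‖ ≤ M := fun θ => hM _
  have hG2M : ∀ θ : ℝ, ‖G2 θ‖ ≤ M := fun θ => hM _
  have hmeas : Measurable fun x : E (k + 1) => ENNReal.ofReal (‖TZ k γ x‖ ^ p) :=
    ((TZ_meas k γ hγ).norm.pow_const p).ennreal_ofReal
  rw [← (J_mp k 1).lintegral_comp hmeas]
  have hred : ∀ q : E k × E 1, ENNReal.ofReal (‖TZ k γ (J q.1 q.2)‖ ^ p) ≤
      ENNReal.ofReal (c ^ p * 2 ^ p) *
        (ENNReal.ofReal (‖Fz k G1 ‖q.1‖ (1 * q.2 0)‖ ^ p) +
          ENNReal.ofReal (‖Fz k G2 ‖q.1‖ (-1 * q.2 0)‖ ^ p)) := by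
    intro q
    unfold TZ
    rw [zreduction k hk γ hγ M hM q.1 q.2, norm_mul, ← hc, Real.mul_rpow hc0 (norm_nonneg _),
      ← ENNReal.ofReal_add (by positivity) (by positivity), ← ENNReal.ofReal_mul (by positivity)]
    apply ENNReal.ofReal_le_ofReal
    rw [mul_assoc]
    gcongr
    rw [one_mul, neg_one_mul]
    refine le_trans ?_ (add_rpow_le _ _ p (norm_nonneg _) (norm_nonneg _) hp0.le)
    gcongr
    exact norm_add_le _ _
  have hm1 : Measurable fun q : E k × E 1 =>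
      ENNReal.ofReal (‖Fz k G1 ‖q.1‖ (1 * q.2 0)‖ ^ p) := by
    have hn1 : Measurable fun q : E k × E 1 => ‖q.1‖ := measurable_fst.norm
    have hn2 : Measurable fun q : E k × E 1 => 1 * q.2 0 := by fun_prop
    have h := (Fz_meas k G1 hG1).comp (hn1.prodMk hn2)
    exact (h.norm.pow_const p).ennreal_ofReal
  calc ∫⁻ q : E k × E 1, ENNReal.ofReal (‖TZ k γ (J q.1 q.2)‖ ^ p)
        ∂((volume : Measure (E k)).prod (volume : Measure (E 1)))
      ≤ ∫⁻ q : E k × E 1, ENNReal.ofReal (c ^ p * 2 ^ p) *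
        (ENNReal.ofReal (‖Fz k G1 ‖q.1‖ (1 * q.2 0)‖ ^ p) +
          ENNReal.ofReal (‖Fz k G2 ‖q.1‖ (-1 * q.2 0)‖ ^ p))
        ∂((volume : Measure (E k)).prod (volume : Measure (E 1))) := lintegral_mono hred
    _ = ENNReal.ofReal (c ^ p * 2 ^ p) *
        (sg k univ * (∫⁻ r in Ioi (0 : ℝ), ∫⁻ t, ENNReal.ofReal (‖Fz k G1 r t‖ ^ p * r ^ (k - 1)))
        + sg k univ *
          (∫⁻ r in Ioi (0 : ℝ), ∫⁻ t, ENNReal.ofReal (‖Fz k G2 r t‖ ^ p * r ^ (k - 1)))) := by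
        rw [lintegral_const_mul' _ _ ENNReal.ofReal_ne_top, lintegral_add_left hm1,
          space_z k hk p G1 hG1 1 (Or.inl rfl), space_z k hk p G2 hG2 (-1) (Or.inr rfl)]
    _ ≤ ENNReal.ofReal (c ^ p * 2 ^ p) *
        (sg k univ * ENNReal.ofReal (C * M ^ p) + sg k univ * ENNReal.ofReal (C * M ^ p)) := by
        gcongr
        · exact hpl _ M hG1 hG1M
        · exact hpl _ M hG2 hG2M
    _ = ENNReal.ofReal (c ^ p * 2 ^ p * (2 * ((sg k).real univ * C)) * M ^ p) := by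
        rw [← ofReal_measureReal, ← ENNReal.ofReal_mul (by positivity),
          ← ENNReal.ofReal_add (by positivity) (by positivity),
          ← ENNReal.ofReal_mul (by positivity)]
        congr 1
        ring
    _ ≤ _ := by
        apply ENNReal.ofReal_le_ofReal
        have : 0 ≤ M ^ p := Real.rpow_nonneg hM0 p
        nlinarith

theorem core (k : ℕ) (hk : 2 ≤ k) (p : ℝ) (hp : 2 * ((k : ℝ) + 1) / k < p) :
    ∃ C : ℝ, 0 < C ∧ ∀ (γ : ℝ → ℂ) (M : ℝ), Measurable γ → (∀ s, ‖γ s‖ ≤ M) →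
    ∫⁻ x : E (k + 1), ENNReal.ofReal (‖TZ k γ x‖ ^ p) ≤ ENNReal.ofReal (C * M ^ p) := by
  rcases lt_or_ge p 4 with hp4 | hp4
  · exact core_lt k hk p hp hp4
  · have hkr : (2 : ℝ) ≤ k := by exact_mod_cast hk
    have f1 : IsFiniteMeasure (sg (k + 1)) := sg_finite _
    have h3 : 2 * ((k : ℝ) + 1) / k < 7 / 2 := by
      rw [div_lt_iff₀ (by linarith)]; linarith
    obtain ⟨C, hC, h⟩ := core_lt k hk (7 / 2) h3 (by norm_num)
    set S : ℝ := (sg (k + 1)).real univ with hS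
    have hS0 : 0 ≤ S := measureReal_nonneg
    refine ⟨S ^ (p - 7 / 2) * C + 1, by positivity, ?_⟩
    intro γ M hγ hM
    have hM0 : 0 ≤ M := (norm_nonneg _).trans (hM 0)
    calc ∫⁻ x : E (k + 1), ENNReal.ofReal (‖TZ k γ x‖ ^ p)
        ≤ ∫⁻ x : E (k + 1), ENNReal.ofReal ((M * S) ^ (p - 7 / 2)) *
          ENNReal.ofReal (‖TZ k γ x‖ ^ (7 / 2 : ℝ)) := by
          apply lintegral_mono
          intro x
          simp only
          rw [← ENNReal.ofReal_mul (by positivity)]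
          apply ENNReal.ofReal_le_ofReal
          have e1 : p = (p - 7 / 2) + 7 / 2 := by ring
          conv_lhs => rw [e1]
          rw [Real.rpow_add_of_nonneg (norm_nonneg _) (by linarith) (by norm_num)]
          gcongr
          · linarith
          · exact TZ_le k γ M hM x
      _ = ENNReal.ofReal ((M * S) ^ (p - 7 / 2)) *
          ∫⁻ x : E (k + 1), ENNReal.ofReal (‖TZ k γ x‖ ^ (7 / 2 : ℝ)) := by
          rw [lintegral_const_mul' _ _ ENNReal.ofReal_ne_top]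
      _ ≤ ENNReal.ofReal ((M * S) ^ (p - 7 / 2)) * ENNReal.ofReal (C * M ^ (7 / 2 : ℝ)) := by
          gcongr
          exact h γ M hγ hM
      _ = ENNReal.ofReal (S ^ (p - 7 / 2) * C * (M ^ (p - 7 / 2) * M ^ (7 / 2 : ℝ))) := by
          rw [← ENNReal.ofReal_mul (by positivity), Real.mul_rpow hM0 hS0]
          congr 1
          ring
      _ ≤ _ := by
          apply ENNReal.ofReal_le_ofReal
          rw [← Real.rpow_add_of_nonneg hM0 (by linarith) (by norm_num), sub_add_cancel]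
          have : 0 ≤ M ^ p := Real.rpow_nonneg hM0 p
          nlinarith

/-- an isometry which turns `⟪e, ·⟫` into the last coordinate -/
theorem exists_frame1 (k : ℕ) (e : E (k + 1)) (he : ‖e‖ = 1) :
    ∃ Λ : E (k + 1) ≃ₗᵢ[ℝ] E (k + 1), ∀ x, (Λ x) (Fin.natAdd k 0) = ⟪e, x⟫ := by
  set v : Fin (k + 1) → E (k + 1) := fun _ => e with hv
  set s : Set (Fin (k + 1)) := {Fin.natAdd k 0} with hs
  have hor : Orthonormal ℝ (s.domRestrict v) := by
    rw [orthonormal_iff_ite]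
    rintro ⟨i, hi⟩ ⟨j, hj⟩
    rw [hs, mem_singleton_iff] at hi hj
    subst hi
    subst hj
    simp [hv, he]
  obtain ⟨b, hb⟩ := hor.exists_orthonormalBasis_extension_of_card_eq (by simp)
  refine ⟨b.repr, ?_⟩
  intro x
  rw [b.repr_apply_apply, hb _ (by simp [hs]), hv]

theorem U_eq (k : ℕ) (e : E (k + 1)) (Λ : E (k + 1) ≃ₗᵢ[ℝ] E (k + 1))
    (hΛ : ∀ x, (Λ x) (Fin.natAdd k 0) = ⟪e, x⟫) (γ : ℝ → ℂ) (ξ : E (k + 1)) :
    Fam.U (fun w => ⟪e, w⟫) γ ξ = TZ k γ ((2 * Real.pi) • Λ ξ) := by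
  unfold Fam.U TZ
  rw [← (sg_inv Λ).integral_comp Λ.toHomeomorph.measurableEmbedding
    (fun z => Complex.exp (-((⟪(2 * Real.pi) • Λ ξ, z⟫ : ℝ) : ℂ) * I) * γ (z (Fin.natAdd k 0)))]
  congr 1
  ext w
  rw [hΛ, real_inner_smul_left, Λ.inner_map_map, real_inner_comm]

theorem good_e (k : ℕ) (hk : 2 ≤ k) (p : ℝ) (hp : 2 * ((k : ℝ) + 1) / k < p) :
    ∃ C : ℝ, 0 < C ∧ ∀ e : E (k + 1), ‖e‖ = 1 → Fam.Good (fun w => ⟪e, w⟫) p C := by
  obtain ⟨C, hC, hcore⟩ := core k hk p hp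
  refine ⟨C, hC, ?_⟩
  intro e he γ M hγ hM
  obtain ⟨Λ, hΛ⟩ := exists_frame1 k e he
  have hM0 : 0 ≤ M := (norm_nonneg _).trans (hM 0)
  simp_rw [U_eq k e Λ hΛ]
  have hmeas : Measurable fun x : E (k + 1) => ENNReal.ofReal (‖TZ k γ x‖ ^ p) :=
    ((TZ_meas k γ hγ).norm.pow_const p).ennreal_ofReal
  have hmeas2 : Measurable fun x : E (k + 1) =>
      ENNReal.ofReal (‖TZ k γ ((2 * Real.pi) • x)‖ ^ p) := by
    have h1 : Measurable fun x : E (k + 1) => (2 * Real.pi) • x := measurable_const_smul _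
    have h2 := Measurable.comp hmeas h1
    exact h2
  have h1 : ∫⁻ ξ, ENNReal.ofReal (‖TZ k γ ((2 * Real.pi) • Λ ξ)‖ ^ p) =
      ∫⁻ ξ, ENNReal.ofReal (‖TZ k γ ((2 * Real.pi) • ξ)‖ ^ p) :=
    Λ.measurePreserving.lintegral_comp hmeas2
  rw [h1]
  have h2pi : (2 * Real.pi) ≠ 0 := by positivity
  have h3 := Measure.map_addHaar_smul (volume : Measure (E (k + 1))) h2pi
  have h4 : ∫⁻ x : E (k + 1), ENNReal.ofReal (‖TZ k γ x‖ ^ p)
      ∂(Measure.map ((2 * Real.pi) • · : E (k + 1) → E (k + 1)) volume) =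
      ∫⁻ ξ : E (k + 1), ENNReal.ofReal (‖TZ k γ ((2 * Real.pi) • ξ)‖ ^ p) :=
    lintegral_map hmeas (measurable_const_smul _)
  rw [← h4, h3, lintegral_smul_measure, smul_eq_mul]
  have h5 : ENNReal.ofReal |((2 * Real.pi) ^ Module.finrank ℝ (E (k + 1)))⁻¹| ≤ 1 := by
    rw [ENNReal.ofReal_le_one, abs_of_nonneg (by positivity)]
    apply inv_le_one_of_one_le₀
    apply one_le_pow₀
    linarith [Real.pi_gt_three]
  calc _ ≤ 1 * ∫⁻ x : E (k + 1), ENNReal.ofReal (‖TZ k γ x‖ ^ p) := by gcongr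
    _ ≤ _ := by
        rw [one_mul]
        exact hcore γ M hγ hM

end Pool.Agent.H438R2.ZD
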