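import Mathlib
import Pool.Agent.H97.L.Tf0cf7b00.H438R2.BR.Fin
import Pool.Agent.H97.L.Tf0cf7b00.H438R2.ZD.Core
set_option autoImplicit false

/-! One constant for all rough variables. -/

namespace Pool.Agent.H438R2.ZD

open MeasureTheory Set Complex Module
open scoped ENNReal RealInnerProductSpace
open Pool.Agent.H789R2.FR (E sg sg_ae sg_inv sg_finite)
open Pool.Agent.H438R2.BR

/-- coordinates -/
theorem good_coord (n : ℕ) (hn : 3 ≤ n) (p : ℝ) (hp : 2 * (n : ℝ) / (n - 1) < p) :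
    ∃ C : ℝ, 0 < C ∧ ∀ e : E n, ‖e‖ = 1 → Fam.Good (fun w => ⟪e, w⟫) p C := by
  obtain ⟨k, rfl⟩ : ∃ k, n = k + 1 := ⟨n - 1, by omega⟩
  refine good_e k (by omega) p ?_
  push_cast at hp
  simpa using hp

/-- the constant may be increased -/
theorem Good_mono {n : ℕ} (τ : E n → ℝ) (p C C' : ℝ) (h : C ≤ C') (hG : Fam.Good τ p C) :
    Fam.Good τ p C' := by
  intro γ M hγ hM
  have hM0 : 0 ≤ M := (norm_nonneg _).trans (hM 0)
  refine (hG γ M hγ hM).trans ?_
  apply ENNReal.ofReal_le_ofReal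
  have : 0 ≤ M ^ p := Real.rpow_nonneg hM0 p
  nlinarith

/-- functions of a good variable are good -/
theorem Good_comp {n : ℕ} (τ τ' : E n → ℝ) (p C : ℝ) (h : ℝ → ℝ) (hh : Measurable h)
    (heq : ∀ w, ‖w‖ = 1 → τ' w = h (τ w)) (hG : Fam.Good τ p C) : Fam.Good τ' p C := by
  intro γ M hγ hM
  have h1 : ∀ ξ, Fam.U τ' γ ξ = Fam.U τ (fun s => γ (h s)) ξ := by
    intro ξ
    unfold Fam.U
    apply integral_congr_ae
    filter_upwards [sg_ae n] with w hw
    rw [heq w hw]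
  simp_rw [h1]
  exact hG (fun s => γ (h s)) M (hγ.comp hh) (fun s => hM _)

theorem good_len_one (n : ℕ) (hn : 3 ≤ n) (p : ℝ) (hp : 2 * (n : ℝ) / (n - 1) < p) :
    ∃ C : ℝ, 0 < C ∧ ∀ V : Submodule ℝ (E n), finrank ℝ V = 1 →
      Fam.Good (fun w => ‖V.starProjection w‖) p C := by
  obtain ⟨C, hC, h⟩ := good_coord n hn p hp
  refine ⟨C, hC, ?_⟩
  intro V hV
  set b : OrthonormalBasis (Fin 1) ℝ V := (stdOrthonormalBasis ℝ V).reindex (finCongr hV)
  set e : E n := (b 0 : E n) with he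
  have hen : ‖e‖ = 1 := by
    have h9 : ‖b 0‖ = 1 := b.orthonormal.norm_eq_one 0
    exact h9
  refine Good_comp (fun w => ⟪e, w⟫) _ p C (fun s => |s|) (by fun_prop) ?_ (h e hen)
  intro w _
  have h4 := b.sum_sq_inner_right (V.orthogonalProjectionOnto w)
  have h5 : ‖V.starProjection w‖ = ‖V.orthogonalProjectionOnto w‖ := rfl
  rw [h5]
  rw [Fin.sum_univ_one] at h4
  have h6 : (⟪b 0, V.orthogonalProjectionOnto w⟫ : ℝ) = ⟪e, w⟫ := by
    rw [he, Submodule.inner_orthogonalProjectionOnto_eq_of_mem_left]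
  rw [h6] at h4
  rw [← Real.sqrt_sq (norm_nonneg (V.orthogonalProjectionOnto w)), ← h4, Real.sqrt_sq_eq_abs]

theorem good_len_compl (n : ℕ) (p C : ℝ) (V : Submodule ℝ (E n))
    (h : Fam.Good (fun w => ‖Vᗮ.starProjection w‖) p C) :
    Fam.Good (fun w => ‖V.starProjection w‖) p C := by
  refine Good_comp (fun w => ‖Vᗮ.starProjection w‖) _ p C (fun s => Real.sqrt (1 - s ^ 2))
    (by fun_prop) ?_ h
  intro w hw
  have h1 := Submodule.norm_sq_eq_add_norm_sq_starProjection w V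
  rw [hw] at h1
  rw [show (1 : ℝ) - ‖Vᗮ.starProjection w‖ ^ 2 = ‖V.starProjection w‖ ^ 2 by linarith,
    Real.sqrt_sq (norm_nonneg _)]

theorem good_len (n : ℕ) (hn : 3 ≤ n) (p : ℝ) (hp : 2 * (n : ℝ) / (n - 1) < p) :
    ∃ C : ℝ, 0 < C ∧ ∀ V : Submodule ℝ (E n), V ≠ ⊥ → V ≠ ⊤ →
      Fam.Good (fun w => ‖V.starProjection w‖) p C := by
  have h : ∀ k : ℕ, ∃ C : ℝ, 0 < C ∧ (2 ≤ k → k + 2 ≤ n →
      ∀ V : Submodule ℝ (E n), finrank ℝ V = k →
      Fam.Good (fun w => ‖V.starProjection w‖) p C) := by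
    intro k
    by_cases h1 : 2 ≤ k ∧ k + 2 ≤ n
    · obtain ⟨m, hm⟩ : ∃ m, n = k + m := ⟨n - k, by omega⟩
      subst hm
      obtain ⟨C, hC, h⟩ := good_V k m h1.1 (by omega) p (by push_cast at hp; exact hp)
      exact ⟨C, hC, fun _ _ => h⟩
    · exact ⟨1, one_pos, fun h2 h3 => absurd ⟨h2, h3⟩ h1⟩
  choose C hC hb using h
  obtain ⟨C1, hC1, h1⟩ := good_len_one n hn p hp
  refine ⟨C1 + ∑ k ∈ Finset.range n, C k, ?_, ?_⟩
  · have : 0 ≤ ∑ k ∈ Finset.range n, C k := Finset.sum_nonneg fun k _ => (hC k).le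
    linarith
  intro V hV0 hV1
  have hsum : 0 ≤ ∑ k ∈ Finset.range n, C k := Finset.sum_nonneg fun k _ => (hC k).le
  have hpos : 1 ≤ finrank ℝ V := by
    rw [Nat.one_le_iff_ne_zero]
    intro h0
    exact hV0 (Submodule.finrank_eq_zero.1 h0)
  have hlt : finrank ℝ V < n := by
    have := Submodule.finrank_lt hV1
    simpa using this
  have hadd : finrank ℝ V + finrank ℝ (Vᗮ : Submodule ℝ (E n)) = n := by
    have := Submodule.finrank_add_finrank_orthogonal V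
    simpa using this
  rcases Nat.lt_or_ge (finrank ℝ V) 2 with h2 | h2
  · exact Good_mono _ p C1 _ (by linarith) (h1 V (by omega))
  rcases Nat.lt_or_ge n (finrank ℝ V + 2) with h3 | h3
  · exact Good_mono _ p C1 _ (by linarith) (good_len_compl n p C1 V (h1 Vᗮ (by omega)))
  · refine Good_mono _ p (C (finrank ℝ V)) _ ?_ (hb _ h2 h3 V rfl)
    have : C (finrank ℝ V) ≤ ∑ k ∈ Finset.range n, C k :=
      Finset.single_le_sum (f := C) (fun k _ => (hC k).le) (Finset.mem_range.2 (by omega))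
    linarith

end Pool.Agent.H438R2.ZD
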